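import Pool.Agent.Helper53.WR.Defs

/-!
# Project FN, piece Z2: residue classes modulo a large modulus

For a random shift `τ`, few pairs `p = (u, z)` of a world meet a given residue class modulo `m`,
independently of `σ` and of the top part.
-/

set_option autoImplicit false
set_option linter.unusedVariables false

namespace Pool.Agent.Helper59.FN

open Finset
open Pool.Agent.Helper3.Thin (dig und off Lab GoodSet und_lt dig_und dig_und_high)
open Pool.Agent.Helper53.WR

/-! ### The moment generating function -/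

/-- The moment generating function of the number of `u` with `τ u ∈ B u`. -/
theorem mgf_eq {F : Type} [Fintype F] [DecidableEq F] (B : F → Finset F) (A : ℝ) :
    ∑ τ : F → F, A ^ (univ.filter (fun u => τ u ∈ B u)).card
      = ∏ u, ((Fintype.card F : ℝ) + (A - 1) * ((B u).card : ℝ)) := by
  have h1 : ∀ τ : F → F, A ^ (univ.filter (fun u => τ u ∈ B u)).card
      = ∏ u, (if τ u ∈ B u then A else 1) := by
    intro τ
    rw [Finset.prod_ite, Finset.prod_const, Finset.prod_const_one, mul_one]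
  simp_rw [h1]
  have h2 : ∑ τ : F → F, ∏ u : F, (if τ u ∈ B u then A else (1 : ℝ)) =
      ∏ u : F, ∑ v : F, (if v ∈ B u then A else (1 : ℝ)) := by
    rw [Finset.prod_univ_sum, Fintype.piFinset_univ]
  rw [h2]
  refine Finset.prod_congr rfl (fun u _ => ?_)
  have h3 : ∀ v : F, (if v ∈ B u then A else (1 : ℝ)) = 1 + (if v ∈ B u then A - 1 else 0) := by
    intro v
    split_ifs <;> ring
  simp_rw [h3]
  rw [Finset.sum_add_distrib, Finset.sum_ite_mem, Finset.univ_inter, Finset.sum_const,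
    Finset.sum_const, Finset.card_univ, nsmul_eq_mul, nsmul_eq_mul, mul_one]
  ring

/-- Exponential moment with small total mass. -/
theorem mgf_le {F : Type} [Fintype F] [DecidableEq F] [Nonempty F] (B : F → Finset F) (A μ : ℝ)
    (hA : 1 ≤ A) (hμ : ∑ u, ((B u).card : ℝ) ≤ μ * Fintype.card F) :
    ∑ τ : F → F, A ^ (univ.filter (fun u => τ u ∈ B u)).card
      ≤ Fintype.card (F → F) * Real.exp ((A - 1) * μ) := by
  have hF : (0 : ℝ) < Fintype.card F := by exact_mod_cast Fintype.card_pos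
  rw [mgf_eq]
  have h3 : ∏ u, ((Fintype.card F : ℝ) + (A - 1) * ((B u).card : ℝ))
      ≤ ∏ u : F, ((Fintype.card F : ℝ) * Real.exp ((A - 1) * ((B u).card : ℝ) / Fintype.card F)) := by
    refine Finset.prod_le_prod (fun u _ => ?_) (fun u _ => ?_)
    · have : (0 : ℝ) ≤ (A - 1) * ((B u).card : ℝ) :=
        mul_nonneg (by linarith) (Nat.cast_nonneg _)
      linarith
    · have h4 := Real.add_one_le_exp ((A - 1) * ((B u).card : ℝ) / Fintype.card F)
      have h5 : (Fintype.card F : ℝ) + (A - 1) * ((B u).card : ℝ)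
          = Fintype.card F * ((A - 1) * ((B u).card : ℝ) / Fintype.card F + 1) := by
        field_simp
        ring
      rw [h5]
      exact mul_le_mul_of_nonneg_left h4 hF.le
  refine h3.trans ?_
  rw [Finset.prod_mul_distrib, Finset.prod_const, ← Real.exp_sum, Finset.card_univ,
    Fintype.card_fun]
  push_cast
  refine mul_le_mul_of_nonneg_left (Real.exp_le_exp.mpr ?_) (by positivity)
  have h6 : ∑ u, (A - 1) * ((B u).card : ℝ) / Fintype.card F
      = (A - 1) * (∑ u, ((B u).card : ℝ)) / Fintype.card F := by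
    rw [Finset.mul_sum, Finset.sum_div]
  rw [h6, div_le_iff₀ hF]
  calc (A - 1) * (∑ u, ((B u).card : ℝ)) ≤ (A - 1) * (μ * Fintype.card F) :=
        mul_le_mul_of_nonneg_left hμ (by linarith)
    _ = _ := by ring

/-- Markov inequality for the number of bad shifts. -/
theorem bad_le {F : Type} [Fintype F] [DecidableEq F] (c : (F → F) → ℕ) (A M : ℝ) (y : ℕ)
    (hA : 1 ≤ A) (h : ∑ τ : F → F, A ^ c τ ≤ M) :
    (((univ : Finset (F → F)).filter (fun τ => y ≤ c τ)).card : ℝ) * A ^ y ≤ M := by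
  have hApos : (0 : ℝ) < A := lt_of_lt_of_le one_pos hA
  refine le_trans ?_ h
  have h1 : (((univ : Finset (F → F)).filter (fun τ => y ≤ c τ)).card : ℝ) * A ^ y
      ≤ ∑ τ ∈ (univ : Finset (F → F)).filter (fun τ => y ≤ c τ), A ^ c τ := by
    rw [← nsmul_eq_mul]
    refine Finset.card_nsmul_le_sum _ _ _ (fun τ hτ => ?_)
    exact pow_le_pow_right₀ hA (mem_filter.mp hτ).2
  exact h1.trans (Finset.sum_le_sum_of_subset_of_nonneg (filter_subset _ _)
    (fun τ _ _ => pow_nonneg hApos.le _))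

/-! ### The pairs which meet a residue class -/

open Classical in
/-- The high digit pairs `v` for which `(u, v)` are the low digits of some `N < B`, `N ≡ r`
modulo `m`. -/
noncomputable def Vs (q m r B : ℕ) [Fact q.Prime] (u : ZMod q × ZMod q) :
    Finset (ZMod q × ZMod q) :=
  univ.filter (fun v => ∃ N < B, N % m = r % m ∧ N % q ^ 4 = und u v)

open Classical in
/-- The pairs of `Γ × Γ` which may meet the residue class of `r` modulo `m`. -/
noncomputable def Mt {q : ℕ} (Γ : Finset (ZMod q × ZMod q)) (m r B : ℕ)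
    (τ : ZMod q × ZMod q → ZMod q × ZMod q) :
    Finset ((ZMod q × ZMod q) × (ZMod q × ZMod q)) :=
  (Γ ×ˢ Γ).filter (fun p => ∃ N < B, N % m = r % m ∧ N % q ^ 4 = und p.1 (p.2 + τ p.1))

theorem und_inj2 {q : ℕ} [Fact q.Prime] {u u' v v' : ZMod q × ZMod q}
    (h : und u v = und u' v') : u = u' ∧ v = v' := by
  have h1 := dig_und u v
  have h2 := dig_und_high u v
  rw [h, dig_und u' v'] at h1
  rw [h, dig_und_high u' v'] at h2
  exact ⟨h1.symm, h2.symm⟩

theorem und_mod_sq {q : ℕ} [Fact q.Prime] (u v v' : ZMod q × ZMod q) :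
    und u v ≡ und u v' [MOD q ^ 2] := by
  unfold und
  unfold Nat.ModEq
  rw [Nat.add_mul_mod_self_right, Nat.add_mul_mod_self_right]

theorem mem_Vs {q m r B : ℕ} [Fact q.Prime] {u v : ZMod q × ZMod q} :
    v ∈ Vs q m r B u ↔ ∃ N < B, N % m = r % m ∧ N % q ^ 4 = und u v := by
  unfold Vs
  rw [mem_filter]
  exact ⟨fun h => h.2, fun h => ⟨mem_univ _, h⟩⟩

/-- For one `u` at most one `v`. -/
theorem Vs_unique {q m r B : ℕ} [Fact q.Prime] (hc : Nat.Coprime q m) (hB : B ≤ m * q ^ 2)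
    {u v v' : ZMod q × ZMod q} (h : v ∈ Vs q m r B u) (h' : v' ∈ Vs q m r B u) : v = v' := by
  obtain ⟨N, hN, h1, h2⟩ := mem_Vs.mp h
  obtain ⟨N', hN', h1', h2'⟩ := mem_Vs.mp h'
  have e1 : N ≡ N' [MOD m] := by
    unfold Nat.ModEq
    rw [h1, h1']
  have e2 : N ≡ N' [MOD q ^ 2] := by
    have a1 : N ≡ und u v [MOD q ^ 4] := by
      rw [← h2]
      exact (Nat.mod_modEq _ _).symm
    have a2 : N' ≡ und u v' [MOD q ^ 4] := by
      rw [← h2']
      exact (Nat.mod_modEq _ _).symm
    have d : q ^ 2 ∣ q ^ 4 := pow_dvd_pow q (by norm_num)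
    exact ((a1.of_dvd d).trans (und_mod_sq u v v')).trans (a2.of_dvd d).symm
  have e3 : N ≡ N' [MOD m * q ^ 2] :=
    (Nat.modEq_and_modEq_iff_modEq_mul (Nat.Coprime.pow_right 2 hc.symm)).mp ⟨e1, e2⟩
  have e4 : N = N' := Nat.ModEq.eq_of_lt_of_lt e3 (hN.trans_le hB) (hN'.trans_le hB)
  rw [← e4, h2] at h2'
  exact (und_inj2 h2').2

/-- The total number of pairs `(u, v)` is at most the number of `N`. -/
theorem sum_Vs_le {q m r B J : ℕ} [Fact q.Prime] (hJ : B ≤ m * J) :
    ∑ u : ZMod q × ZMod q, (Vs q m r B u).card ≤ J := by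
  classical
  have hq : 0 < q := (Fact.out : q.Prime).pos
  haveI : NeZero q := ⟨hq.ne'⟩
  rw [← Finset.card_sigma]
  have hex : ∀ x : (Σ _ : ZMod q × ZMod q, ZMod q × ZMod q),
      x ∈ (univ : Finset (ZMod q × ZMod q)).sigma (fun u => Vs q m r B u) →
        ∃ N < B, N % m = r % m ∧ N % q ^ 4 = und x.1 x.2 := by
    intro x hx
    rw [mem_sigma] at hx
    exact mem_Vs.mp hx.2
  let g : (Σ _ : ZMod q × ZMod q, ZMod q × ZMod q) → ℕ := fun x =>
    if h : ∃ N < B, N % m = r % m ∧ N % q ^ 4 = und x.1 x.2 then h.choose / m else 0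
  have h0 : ((univ : Finset (ZMod q × ZMod q)).sigma (fun u => Vs q m r B u)).card
      ≤ (range J).card := by
    apply Finset.card_le_card_of_injOn g
    · intro x hx
      rw [Finset.mem_coe] at hx
      have h := hex x hx
      have hs := h.choose_spec
      have e : g x = h.choose / m := dif_pos h
      rw [e, Finset.mem_coe, mem_range]
      exact Nat.div_lt_of_lt_mul (hs.1.trans_le hJ)
    · intro x hx x' hx' hxx
      rw [Finset.mem_coe] at hx hx'
      have h := hex x hx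
      have h' := hex x' hx'
      have hs := h.choose_spec
      have hs' := h'.choose_spec
      have e : g x = h.choose / m := dif_pos h
      have e' : g x' = h'.choose / m := dif_pos h'
      rw [e, e'] at hxx
      have e2 : h.choose = h'.choose := by
        rw [← Nat.div_add_mod h.choose m, ← Nat.div_add_mod h'.choose m, hxx, hs.2.1, hs'.2.1]
      have e3 := hs.2.2
      rw [e2, hs'.2.2] at e3
      have e4 := und_inj2 e3
      obtain ⟨a, b⟩ := x
      obtain ⟨a', b'⟩ := x'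
      simp only at e4
      rw [e4.1, e4.2]
  rwa [card_range] at h0

open Classical in
/-- The bad values of `τ u`. -/
noncomputable def Bd {q : ℕ} [Fact q.Prime] (Γ : Finset (ZMod q × ZMod q)) (m r B : ℕ)
    (u : ZMod q × ZMod q) : Finset (ZMod q × ZMod q) :=
  if u ∈ Γ then (Vs q m r B u).biUnion (fun v => Γ.image (fun z => v - z)) else ∅

theorem card_Bd_le {q m r B : ℕ} [Fact q.Prime] (Γ : Finset (ZMod q × ZMod q))
    (u : ZMod q × ZMod q) : (Bd Γ m r B u).card ≤ (Vs q m r B u).card * Γ.card := by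
  classical
  unfold Bd
  split_ifs
  · exact Finset.card_biUnion_le_card_mul _ _ _ (fun v _ => Finset.card_image_le)
  · simp

/-- The pairs which may meet the class are counted by the `u` with `τ u` bad. -/
theorem card_Mt_le {q m r B : ℕ} [Fact q.Prime] (Γ : Finset (ZMod q × ZMod q))
    (hc : Nat.Coprime q m) (hB : B ≤ m * q ^ 2) (τ : ZMod q × ZMod q → ZMod q × ZMod q) :
    (Mt Γ m r B τ).card ≤ (univ.filter (fun u => τ u ∈ Bd Γ m r B u)).card := by
  classical
  have hq : 0 < q := (Fact.out : q.Prime).pos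
  haveI : NeZero q := ⟨hq.ne'⟩
  have hmem : ∀ p ∈ Mt Γ m r B τ, p.1 ∈ Γ ∧ p.2 ∈ Γ ∧ p.2 + τ p.1 ∈ Vs q m r B p.1 := by
    intro p hp
    unfold Mt at hp
    rw [mem_filter, mem_product] at hp
    exact ⟨hp.1.1, hp.1.2, mem_Vs.mpr hp.2⟩
  apply Finset.card_le_card_of_injOn Prod.fst
  · intro p hp
    rw [Finset.mem_coe] at hp
    obtain ⟨h1, h2, h3⟩ := hmem p hp
    rw [Finset.mem_coe, mem_filter]
    refine ⟨mem_univ _, ?_⟩
    unfold Bd
    rw [if_pos h1, mem_biUnion]
    refine ⟨p.2 + τ p.1, h3, ?_⟩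
    rw [mem_image]
    exact ⟨p.2, h2, by abel⟩
  · intro p hp p' hp' hpp
    rw [Finset.mem_coe] at hp hp'
    obtain ⟨h1, h2, h3⟩ := hmem p hp
    obtain ⟨h1', h2', h3'⟩ := hmem p' hp'
    rw [hpp] at h3
    have h4 := Vs_unique hc hB h3 h3'
    have h5 : p.2 = p'.2 := add_right_cancel h4
    exact Prod.ext hpp h5

/-- Exponential moment of the number of pairs which may meet the class of `r` modulo `m`. -/
theorem mgf_Mt {q m r B J : ℕ} [Fact q.Prime] (Γ : Finset (ZMod q × ZMod q))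
    (hΓ : Γ.card ≤ 3 * q) (hc : Nat.Coprime q m) (hB : B ≤ m * q ^ 2) (hJ : B ≤ m * J)
    (A : ℝ) (hA : 1 ≤ A) :
    ∑ τ : ZMod q × ZMod q → ZMod q × ZMod q, A ^ (Mt Γ m r B τ).card
      ≤ Fintype.card (ZMod q × ZMod q → ZMod q × ZMod q) * Real.exp (A * (3 * J / q)) := by
  classical
  have hq : 0 < q := (Fact.out : q.Prime).pos
  haveI : NeZero q := ⟨hq.ne'⟩
  have hqR : (0 : ℝ) < q := by exact_mod_cast hq
  have hcardF : Fintype.card (ZMod q × ZMod q) = q ^ 2 := by
    rw [Fintype.card_prod, ZMod.card, sq]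
  have hsum : ∑ u, ((Bd Γ m r B u).card : ℝ) ≤
      (3 * J / q) * Fintype.card (ZMod q × ZMod q) := by
    have h1 : ∑ u, (Bd Γ m r B u).card ≤ J * (3 * q) := by
      calc ∑ u, (Bd Γ m r B u).card ≤ ∑ u, (Vs q m r B u).card * Γ.card :=
            Finset.sum_le_sum (fun u _ => card_Bd_le Γ u)
        _ = (∑ u, (Vs q m r B u).card) * Γ.card := by rw [Finset.sum_mul]
        _ ≤ J * (3 * q) := Nat.mul_le_mul (sum_Vs_le hJ) hΓ
    have h2 : ∑ u, ((Bd Γ m r B u).card : ℝ) ≤ J * (3 * q) := by exact_mod_cast h1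
    refine h2.trans (le_of_eq ?_)
    rw [hcardF]
    push_cast
    field_simp
  have h1 := mgf_le (Bd Γ m r B) A (3 * J / q) hA hsum
  refine le_trans (Finset.sum_le_sum (fun τ _ => pow_le_pow_right₀ hA (card_Mt_le Γ hc hB τ)))
    (h1.trans ?_)
  refine mul_le_mul_of_nonneg_left (Real.exp_le_exp.mpr ?_) (Nat.cast_nonneg _)
  have : (0 : ℝ) ≤ 3 * J / q := by positivity
  nlinarith

/-- The pairs of a world which meet a residue class. -/
theorem meet_le {q : ℕ} [Fact q.Prime] (Γ : Finset (ZMod q × ZMod q)) (T : Finset ℕ)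
    (S Y m r B y : ℕ) (hTY : ∀ t ∈ T, t < Y) (hB : q ^ 4 * (2 * S + Y) ≤ B)
    (τ : ZMod q × ZMod q → ZMod q × ZMod q)
    (σ : (ZMod q × ZMod q) × (ZMod q × ZMod q) → ℕ) (hσ : ∀ p, σ p < S)
    (h : (Mt Γ m r B τ).card ≤ y) :
    ((Γ ×ˢ Γ).filter (fun p => ∃ t ∈ T,
        (und p.1 (p.2 + τ p.1) + q ^ 4 * (S + σ p + t)) % m = r % m)).card ≤ y := by
  classical
  refine le_trans (Finset.card_le_card ?_) h
  intro p hp
  rw [mem_filter] at hp
  obtain ⟨hp1, t, ht, h1⟩ := hp
  unfold Mt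
  rw [mem_filter]
  refine ⟨hp1, und p.1 (p.2 + τ p.1) + q ^ 4 * (S + σ p + t), ?_, h1, ?_⟩
  · have g1 := und_lt p.1 (p.2 + τ p.1)
    have g2 := hσ p
    have g3 := hTY t ht
    calc und p.1 (p.2 + τ p.1) + q ^ 4 * (S + σ p + t)
        < q ^ 4 + q ^ 4 * (S + σ p + t) := Nat.add_lt_add_right g1 _
      _ = q ^ 4 * (S + σ p + t + 1) := by ring
      _ ≤ q ^ 4 * (2 * S + Y) := Nat.mul_le_mul_left _ (by omega)
      _ ≤ B := hB
  · rw [Nat.add_mul_mod_self_left, Nat.mod_eq_of_lt (und_lt _ _)]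

end Pool.Agent.Helper59.FN
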