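import Pool.Agent.Helper59.FN.Res4

/-!
# Project FN, pieces Z3a and Z3b: pairs which meet a residue class
-/

set_option autoImplicit false
set_option linter.unusedVariables false

namespace Pool.Agent.Helper59.FN

open Finset
open Pool.Agent.Helper3.Thin (dig und off Lab GoodSet und_lt dig_und dig_und_high)
open Pool.Agent.Helper53.WR

theorem mem_Vs_of {q : ℕ} [Fact q.Prime] {Z m x : ℕ} {u v : ZMod q × ZMod q}
    (h : ∃ c < Z, (und u v + q ^ 4 * c) % m = x % m) : v ∈ Vs q m x (q ^ 4 * Z) u := by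
  obtain ⟨c, hc, h1⟩ := h
  refine mem_Vs.mpr ⟨und u v + q ^ 4 * c, ?_, h1, ?_⟩
  · have g1 := und_lt u v
    calc und u v + q ^ 4 * c < q ^ 4 + q ^ 4 * c := Nat.add_lt_add_right g1 _
      _ = q ^ 4 * (c + 1) := by ring
      _ ≤ q ^ 4 * Z := Nat.mul_le_mul_left _ hc
  · rw [Nat.add_mul_mod_self_left, Nat.mod_eq_of_lt (und_lt _ _)]

/-- FN-Z3a (the pairs which meet a residue class, mass). -/
theorem hit_mass {q : ℕ} [Fact q.Prime] (Γ : Finset (ZMod q × ZMod q)) (hΓ : Γ.card ≤ 3 * q)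
    (Z N1 m x : ℕ) (hm : 0 < m) (h1 : q ^ 4 * Z ≤ N1 * m) :
    ((Γ ×ˢ (univ : Finset (ZMod q × ZMod q))).filter (fun y =>
      ∃ z ∈ Γ, ∃ c < Z, (und y.1 (z + y.2) + q ^ 4 * c) % m = x % m)).card
        ≤ 3 * q * (N1 + 1) := by
  classical
  have hq : 0 < q := (Fact.out : q.Prime).pos
  have : NeZero q := ⟨hq.ne'⟩
  set P : Finset (Σ _ : ZMod q × ZMod q, ZMod q × ZMod q) :=
    (univ : Finset (ZMod q × ZMod q)).sigma (fun u => Vs q m x (q ^ 4 * Z) u) with hP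
  have hPc : P.card ≤ N1 := by
    rw [hP, Finset.card_sigma]
    exact sum_Vs_le (by rw [mul_comm m N1]; exact h1)
  have hsub : (Γ ×ˢ (univ : Finset (ZMod q × ZMod q))).filter (fun y =>
      ∃ z ∈ Γ, ∃ c < Z, (und y.1 (z + y.2) + q ^ 4 * c) % m = x % m) ⊆
      (P ×ˢ Γ).image (fun y => (y.1.1, y.1.2 - y.2)) := by
    intro y hy
    rw [mem_filter] at hy
    obtain ⟨_, z, hz, hc⟩ := hy
    rw [mem_image]
    refine ⟨(⟨y.1, z + y.2⟩, z), ?_, ?_⟩
    · rw [mem_product, hP, mem_sigma]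
      exact ⟨⟨mem_univ _, mem_Vs_of hc⟩, hz⟩
    · exact Prod.ext rfl (by simp)
  calc _ ≤ _ := card_le_card hsub
    _ ≤ (P ×ˢ Γ).card := card_image_le
    _ = P.card * Γ.card := card_product _ _
    _ ≤ N1 * (3 * q) := Nat.mul_le_mul hPc hΓ
    _ ≤ 3 * q * (N1 + 1) := by
      rw [mul_comm N1 (3 * q)]
      exact Nat.mul_le_mul_left _ (Nat.le_succ _)

/-- FN-Z3b (the pairs which meet a residue class; for every `u` there is at most one `z`). -/
theorem hit_card {q : ℕ} [Fact q.Prime] (Γ : Finset (ZMod q × ZMod q)) (Z m x : ℕ) (hm : 0 < m)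
    (hc : Nat.Coprime q m) (h2 : q ^ 4 * Z ≤ m * q ^ 2)
    (τ : ZMod q × ZMod q → ZMod q × ZMod q) :
    ((Γ ×ˢ Γ).filter (fun p =>
      ∃ c < Z, (und p.1 (p.2 + τ p.1) + q ^ 4 * c) % m = x % m)).card ≤
    (Γ.filter (fun u => ∃ z ∈ Γ, ∃ c < Z, (und u (z + τ u) + q ^ 4 * c) % m = x % m)).card := by
  classical
  apply Finset.card_le_card_of_injOn Prod.fst
  · intro p hp
    rw [Finset.mem_coe, mem_filter, mem_product] at hp
    rw [Finset.mem_coe, mem_filter]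
    exact ⟨hp.1.1, p.2, hp.1.2, hp.2⟩
  · intro p hp p' hp' hpp
    rw [Finset.mem_coe, mem_filter, mem_product] at hp hp'
    have h3 := mem_Vs_of hp.2
    have h3' := mem_Vs_of hp'.2
    rw [hpp] at h3
    have h4 := Vs_unique hc h2 h3 h3'
    have h5 : p.2 = p'.2 := add_right_cancel h4
    exact Prod.ext hpp h5

end Pool.Agent.Helper59.FN
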