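import Pool.Agent.Helper74.FN.St.Stubs

/-!
# Project FN, piece Z9: one world of a tower
-/

set_option autoImplicit false

namespace Pool.Agent.Helper59.FN

open Finset
open Pool.Agent.Helper53.WR
open Pool.Agent.Helper48.FB (win crossF Cs Fs)
open Pool.Agent.Helper53.FM (BCov blockMax)
open Pool.Agent.Helper74.FN

/-- The indices of the near moduli. -/
def nearN (a : ℕ → ℕ) (k : ℕ) : Finset ℕ :=
  (range (3 * a k + 1)).filter (fun i => k < i ∧ a i ≤ 3 * a k)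

/-- The thresholds of the residue classes, as a function of the modulus. -/
noncomputable def yM (u b : ℕ → ℕ) (k : ℕ) (q : ℕ → ℕ) : ℕ → ℕ :=
  Function.extend (fun i => q i ^ 2) (Pool.Agent.Helper74.FN.St.yN u b k) (fun _ => 0)

/-- FN-Z9 (one world of a tower). -/
theorem ntower_world {a u b w r c : ℕ → ℕ} (h : NTow a u b w r c) (f g : ℕ → ℕ) (k : ℕ)
    (q : ℕ → ℕ) (hq : ∀ i, (q i).Prime ∧ 2 ^ (a i) < q i ∧ q i ≤ 2 ^ (a i + 1))
    (T O : Finset ℕ) (T' B : ℕ → Finset ℕ)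
    (hT : NTop (laT u k) (Fs u k) (w k) (c k) f g T T' B) (hO : NI a u b r c q k O) :
    ∃ A A', NW a u b w r c f g q B k O A A' := by
  classical
  have hsm : StrictMono a := by
    apply strictMono_nat_of_lt_succ
    intro i
    have h1 := h.step i
    have h2 := (Pool.Agent.Helper74.FN.St.NTow.facts h i).1
    omega
  obtain ⟨f1, f2, f3, f4, f5, f6, f7, f8, f9⟩ := Pool.Agent.Helper74.FN.St.NTow.facts h k
  have hadd := h.step k
  have uu := h.uu k
  have uu' := h.uu' k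
  have hlu := h.lu k
  have hla : laT u k + 5 = 4 * u k + 8 * u (k + 1) := by
    unfold laT
    omega
  have hs0 : s0 u k + 20 = 8 * u k := by
    unfold s0
    omega
  have hsN : sN a u k = 4 * a k + s0 u k := by
    unfold sN
    omega
  have : Fact (q k).Prime := ⟨(hq k).1⟩
  have hqk1 : 2 ^ a k < q k := (hq k).2.1
  have hqk2 : q k ≤ 2 ^ (a k + 1) := (hq k).2.2
  have hq16 : 16 < q k := by
    have : 2 ^ 4 ≤ 2 ^ a k := Nat.pow_le_pow_right (by norm_num) (by omega)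
    omega
  have hI : ∀ i ∈ nearN a k, k < i ∧ a i ≤ 3 * a k := fun i hi => (mem_filter.mp hi).2
  have hmemI : ∀ i, k < i → a i ≤ 3 * a k → i ∈ nearN a k := by
    intro i h1 h2
    refine mem_filter.mpr ⟨mem_range.mpr ?_, h1, h2⟩
    have := hsm.le_apply (x := i)
    omega
  have hinj := sqt_injective hsm hq
  have hsum : ∀ F : ℕ → ℝ, ∑ m ∈ (nearN a k).image (fun i => q i ^ 2), F m
      = ∑ i ∈ nearN a k, F (q i ^ 2) :=
    fun F => Finset.sum_image (fun i _ j _ hij => hinj hij)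
  have hk1 : k < k + 1 := by omega
  have hk2 : k < k + 2 := by omega
  have m2 := fun i hi => Pool.Agent.Helper74.FN.St.mod2_num h k q hq i hi
  have hne : q (k + 1) ^ 4 ≠ q (k + 2) ^ 4 := by
    intro he
    have h1 : q (k + 1) = q (k + 2) := Nat.pow_left_injective (by norm_num) he
    have h2 := qt_strictMono hsm hq (show k + 1 < k + 2 by omega)
    omega
  -- the moduli
  have hMod : ∀ m ∈ (nearN a k).image (fun i => q i ^ 2),
      0 < m ∧ Nat.Coprime (q k) m ∧ q k ^ 2 ≤ m := by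
    intro m hm
    obtain ⟨i, hi, rfl⟩ := mem_image.mp hm
    have h1 := m2 i (hI i hi).1
    exact ⟨pow_pos (hq i).1.pos 2, h1.2.2.1.pow_right 2, h1.2.1⟩
  have hTm : ∀ m ∈ (nearN a k).image (fun i => q i ^ 2), ∀ t ∈ T, 2 ^ s0 u k + t < m := by
    intro m hm t ht
    obtain ⟨i, hi, rfl⟩ := mem_image.mp hm
    have h1 := (m2 i (hI i hi).1).1
    have h2 := hT.lt t ht
    show 2 ^ s0 u k + t < q i ^ 2
    omega
  have hMem4 : ∀ m ∈ ({q (k + 1) ^ 4, q (k + 2) ^ 4} : Finset ℕ),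
      ∃ i, (i = k + 1 ∨ i = k + 2) ∧ m = q i ^ 4 := by
    intro m hm
    rw [mem_insert, mem_singleton] at hm
    rcases hm with rfl | rfl
    · exact ⟨k + 1, Or.inl rfl, rfl⟩
    · exact ⟨k + 2, Or.inr rfl, rfl⟩
  have hlt4 : ∀ i, (i = k + 1 ∨ i = k + 2) → k < i := by
    intro i hi
    omega
  have hMod4 : ∀ m ∈ ({q (k + 1) ^ 4, q (k + 2) ^ 4} : Finset ℕ), 0 < m ∧ Nat.Coprime (q k) m ∧
      q k ^ 4 * (2 * 2 ^ s0 u k + 2 ^ laT u k) ≤ 2 ^ (11 * u k) * m ∧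
      q k ^ 4 * (2 * 2 ^ s0 u k + 2 ^ laT u k) ≤ m * q k ^ 2 := by
    intro m hm
    obtain ⟨i, hi, rfl⟩ := hMem4 m hm
    have h1 := m2 i (hlt4 i hi)
    have h2 := Pool.Agent.Helper74.FN.St.mod4_num h k q hq i hi
    exact ⟨pow_pos (hq i).1.pos 4, h1.2.2.1.pow_right 4, h2.1, h2.2⟩
  have hTm4 : ∀ m ∈ ({q (k + 1) ^ 4, q (k + 2) ^ 4} : Finset ℕ), ∀ t ∈ T, t < m := by
    intro m hm t ht
    obtain ⟨i, hi, rfl⟩ := hMem4 m hm
    have h1 := (m2 i (hlt4 i hi)).1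
    have h2 := hT.lt t ht
    have h3 : q i ^ 2 ≤ q i ^ 4 := Nat.pow_le_pow_right (hq i).1.pos (by norm_num)
    have h4 : 0 < 2 ^ s0 u k := by positivity
    omega
  have gq2 : 2 ^ (4 * a k) ≤ q k ^ 4 := by
    calc 2 ^ (4 * a k) = (2 ^ a k) ^ 4 := by rw [← pow_mul]; congr 1; ring
      _ ≤ q k ^ 4 := Nat.pow_le_pow_left hqk1.le 4
  have gq1 : q k ^ 4 ≤ 2 ^ (4 * a k + 4) := by
    calc q k ^ 4 ≤ (2 ^ (a k + 1)) ^ 4 := Nat.pow_le_pow_left hqk2 4
      _ = _ := by rw [← pow_mul]; congr 1; ring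
  have hqpos : 0 < q k ^ 4 := pow_pos (hq k).1.pos 4
  have hOS : ∀ o ∈ O, o < q k ^ 4 * 2 ^ (8 * u k) := by
    intro o ho
    refine (hO.bd o ho).trans_le ?_
    rw [pow_add]
    exact Nat.mul_le_mul_right _ gq2
  have hH : ∀ r, (O.filter (fun o => o % (q k) ^ 2 = r)).card ≤ 2 ^ (4 * u k + b k + 1) := by
    intro r
    refine (hO.c2 k le_rfl r).trans ?_
    rw [Nat.sub_self, pow_zero, Nat.div_one]
    have g1 : (k + 1) * 2 ^ (2 * u k) ≤ 2 ^ (4 * u k + b k) := by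
      calc (k + 1) * 2 ^ (2 * u k) ≤ 2 ^ u k * 2 ^ (2 * u k) :=
            Nat.mul_le_mul_right _ (by omega)
        _ = 2 ^ (u k + 2 * u k) := (pow_add _ _ _).symm
        _ ≤ _ := Nat.pow_le_pow_right (by norm_num) (by omega)
    have g2 : 2 ^ (4 * u k + b k + 1) = 2 ^ (4 * u k + b k) * 2 := pow_succ _ _
    omega
  have hD : ∀ r, (O.filter (fun o => o % (q k) ^ 4 = r)).card ≤ D0 := by
    intro r
    refine (hO.c4 r).trans ?_
    unfold C4 D0
    norm_num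
  have hwin0 := fun z z' hz => Pool.Agent.Helper74.FN.St.top_win h k hT z z' hz
  have hVT : ∀ z, (win T z (2 ^ s0 u k)).card ≤ 2 ^ (w k + 5 + s0 u k - s0 u k / 2) := by
    intro z
    have h1 := hwin0 0 z (Nat.zero_le _)
    rwa [Nat.log_zero_right, Nat.max_zero] at h1
  obtain ⟨hTc1, hTc2⟩ := Pool.Agent.Helper74.FN.St.top_card h k hT
  have hlog : a k < 2 ^ (Nat.log 2 (a k) + 1) := Nat.lt_pow_succ_log_self (by norm_num) _
  have hXV : a k * 2 ^ (w k + 5 + s0 u k - s0 u k / 2) ≤ T.card := by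
    refine le_trans ?_ hTc1
    calc a k * 2 ^ (w k + 5 + s0 u k - s0 u k / 2)
        ≤ 2 ^ (Nat.log 2 (a k) + 1) * 2 ^ (w k + 5 + s0 u k - s0 u k / 2) :=
          Nat.mul_le_mul_right _ hlog.le
      _ = 2 ^ (Nat.log 2 (a k) + 1 + (w k + 5 + s0 u k - s0 u k / 2)) := (pow_add _ _ _).symm
      _ ≤ _ := Nat.pow_le_pow_right (by norm_num) (by omega)
  have hXD : a k * D0 ≤ 2 ^ (4 * u k + b k + 1) := by
    calc a k * D0 ≤ 2 ^ u k * 2 ^ 16 := Nat.mul_le_mul f4.le (by unfold D0; exact le_rfl)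
      _ = 2 ^ (u k + 16) := (pow_add _ _ _).symm
      _ ≤ _ := Nat.pow_le_pow_right (by norm_num) (by omega)
  have hHN : 2 ^ (4 * u k + b k + 1) ≤ 2 ^ (24 * u k) :=
    Nat.pow_le_pow_right (by norm_num) (by omega)
  have hTN : 2 ^ s0 u k * T.card ≤ 2 ^ (24 * u k) := by
    calc 2 ^ s0 u k * T.card ≤ 2 ^ s0 u k * 2 ^ (b k + 2 * u k + 4 * u (k + 1) - 29) :=
          Nat.mul_le_mul_left _ hTc2
      _ = 2 ^ (s0 u k + (b k + 2 * u k + 4 * u (k + 1) - 29)) := (pow_add _ _ _).symm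
      _ ≤ _ := Nat.pow_le_pow_right (by norm_num) (by omega)
  obtain ⟨t1, t2, t3, t4, t5⟩ := Pool.Agent.Helper74.FN.St.tau_num h k q hq (nearN a k) hI
  have hsum1 : (((q k : ℕ) : ℝ) ^ 4 + ∑ m ∈ (nearN a k).image (fun i => q i ^ 2), (m : ℝ)) *
      (Real.exp (-(8 * ((a k : ℕ) : ℝ))) +
        3 * ((54 * ((2 ^ (24 * u k) : ℕ) : ℝ) ^ 2) / q k) ^ 7) < 1 / 2 := by
    rw [hsum (fun m => (m : ℝ))]
    exact t2
  have hsum2 : ((q k : ℕ) : ℝ) ^ 3 * Real.exp (-((4 * a k : ℕ) : ℝ)) +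
      ∑ m ∈ ({q (k + 1) ^ 4, q (k + 2) ^ 4} : Finset ℕ),
        (m : ℝ) * (3 * (3 * (((2 ^ (11 * u k) : ℕ) : ℝ) + 1) / q k) ^ 5) < 1 / 2 := by
    rw [Finset.sum_pair hne, ← add_mul]
    exact t5
  have hcr := fun n hn => Pool.Agent.Helper74.FN.St.cross_num h k hqk1 hqk2 T hwin0 hT.lt
    (2 ^ (4 * a (k + 1) + 8 * u (k + 1) + 1)) rfl n hn
  choose! W hW1 hW2 using hcr
  have hyM : ∀ i, yM u b k q (q i ^ 2) = Pool.Agent.Helper74.FN.St.yN u b k i :=
    fun i => hinj.extend_apply _ _ i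
  have hY : ∑ m ∈ (nearN a k).image (fun i => q i ^ 2), (m : ℝ) * (Real.exp (Real.exp 1 *
      ((40 : ℝ) * (T.card * ((q k : ℝ) ^ 2 / m + 1 / ((2 ^ s0 u k : ℕ) : ℝ))))) /
        Real.exp 1 ^ yM u b k q m) < 1 / 2 := by
    rw [hsum (fun m => (m : ℝ) * (Real.exp (Real.exp 1 *
      ((40 : ℝ) * (T.card * ((q k : ℝ) ^ 2 / m + 1 / ((2 ^ s0 u k : ℕ) : ℝ))))) /
        Real.exp 1 ^ yM u b k q m))]
    have h1 := Pool.Agent.Helper74.FN.St.res_num h k q hq T hTc2 (nearN a k) hI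
    refine lt_of_le_of_lt (le_of_eq ?_) h1
    refine Finset.sum_congr rfl (fun i _ => ?_)
    rw [hyM]
  have pL := Pool.Agent.Helper74.FN.St.L_num h k hqk2
  obtain ⟨A, A', hA0, hA1, hA2', hA2, hA3, hA3', hA4, hA44, hA5, hs⟩ :=
    Pool.Agent.Helper74.FN.St.world_exists4 (q := q k) hq16 T O T' hT.sub (2 ^ s0 u k)
      (2 ^ (8 * u k)) (2 ^ laT u k) (2 ^ (4 * u k + b k + 1)) D0 (a k) (2 ^ (24 * u k))
      (4 * a k) (2 ^ (11 * u k)) (2 ^ (w k + 5 + s0 u k - s0 u k / 2))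
      (2 ^ (4 * a (k + 1) + 8 * u (k + 1) + 1)) (5 * a k)
      (fun n => tN (a k) (r k) (Nat.log 2 n - sN a u k)) W (by positivity)
      ((nearN a k).image (fun i => q i ^ 2)) {q (k + 1) ^ 4, q (k + 2) ^ 4}
      hMod hTm hMod4 hTm4 hT.lt hOS hH hD (by unfold D0; norm_num) (by positivity) hVT
      (by omega) hXD hXV hHN hTN (by positivity) t1 hsum1 t3 t4 hsum2 hW1
      (fun n => 2 ^ (r k + (Nat.log 2 n - sN a u k) / 2))
      (fun n _ => one_le_pow₀ (by norm_num)) hW2 (fun _ => Real.exp 1)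
      (fun m _ => Real.one_le_exp zero_le_one) (yM u b k q) hY pL
  have gY : 514 + 2 * 2 ^ s0 u k + 2 ^ laT u k ≤ 2 ^ (laT u k + 1) := by
    have g3 : 2 ^ 10 * 2 ^ s0 u k ≤ 2 ^ laT u k := by
      rw [← pow_add]
      exact Nat.pow_le_pow_right (by norm_num) (by omega)
    have g4 : 1 ≤ 2 ^ s0 u k := Nat.one_le_two_pow
    rw [pow_succ]
    omega
  have hrng : ∀ x ∈ A, 2 ^ sN a u k ≤ x ∧ x < 2 ^ (4 * a (k + 1) + 8 * u (k + 1)) := by
    intro x hx
    obtain ⟨h1, h2⟩ := hA1 x hx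
    constructor
    · refine le_trans ?_ h1
      rw [hsN, pow_add]
      exact Nat.mul_le_mul_right _ gq2
    · refine h2.trans_le ?_
      calc q k ^ 4 * (514 + 2 * 2 ^ s0 u k + 2 ^ laT u k)
          ≤ 2 ^ (4 * a k + 4) * 2 ^ (laT u k + 1) := Nat.mul_le_mul gq1 gY
        _ = 2 ^ (4 * a (k + 1) + 8 * u (k + 1)) := by
          rw [← pow_add]
          congr 1
          omega
  -- the blocks of the top parts
  have gS9 : 2 ^ 9 ≤ 2 ^ s0 u k := Nat.pow_le_pow_right (by norm_num) (by omega)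
  have gdiv : ∀ n, 2 ^ (sN a u k + 8) ≤ n → 2 ^ s0 u k * 16 ≤ n / q k ^ 4 := by
    intro n hn
    rw [Nat.le_div_iff_mul_le hqpos]
    calc 2 ^ s0 u k * 16 * q k ^ 4 ≤ 2 ^ s0 u k * 16 * 2 ^ (4 * a k + 4) :=
          Nat.mul_le_mul_left _ gq1
      _ = 2 ^ s0 u k * 2 ^ 4 * 2 ^ (4 * a k + 4) := rfl
      _ = 2 ^ (sN a u k + 8) := by
        rw [← pow_add, ← pow_add]
        congr 1
        omega
      _ ≤ n := hn
  have hblk : ∀ j, sN a u k + 8 ≤ j → j + 1 ≤ 4 * a k + laT u k →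
      ∀ n, 2 ^ j ≤ n → n < 2 ^ (j + 1) →
      ∀ m, n / q k ^ 4 ≤ m + 1028 + 4 * 2 ^ s0 u k → m ≤ n / q k ^ 4 →
        ∃ l, l ≤ 5 ∧ 1 ≤ j - 4 * a k - l ∧ j - 4 * a k - l < laT u k ∧
          2 ^ (j - 4 * a k - l) ≤ m ∧ m < 2 ^ (j - 4 * a k - l + 1) := by
    intro j hj1 hj2 n hn1 hn2 m hm1 hm2
    have g2 : 2 ^ (j - 4 * a k - 4) ≤ n / q k ^ 4 := by
      rw [Nat.le_div_iff_mul_le hqpos]
      calc 2 ^ (j - 4 * a k - 4) * q k ^ 4 ≤ 2 ^ (j - 4 * a k - 4) * 2 ^ (4 * a k + 4) :=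
            Nat.mul_le_mul_left _ gq1
        _ = 2 ^ j := by
          rw [← pow_add]
          congr 1
          omega
        _ ≤ n := hn1
    have g3 : n / q k ^ 4 < 2 ^ (j + 1 - 4 * a k) := by
      rw [Nat.div_lt_iff_lt_mul hqpos]
      calc n < 2 ^ (j + 1) := hn2
        _ = 2 ^ (j + 1 - 4 * a k) * 2 ^ (4 * a k) := by
          rw [← pow_add]
          congr 1
          omega
        _ ≤ _ := Nat.mul_le_mul_left _ gq2
    have g5 : 2 ^ (s0 u k + 3) ≤ 2 ^ (j - 4 * a k - 5) :=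
      Nat.pow_le_pow_right (by norm_num) (by omega)
    have g6 : 2 ^ (j - 4 * a k - 4) = 2 ^ (j - 4 * a k - 5) * 2 := by
      rw [← pow_succ]
      congr 1
      omega
    have g7 : 2 ^ (s0 u k + 3) = 2 ^ s0 u k * 8 := by rw [pow_add]; norm_num
    have g9 : 2 ^ (j - 4 * a k - 5) ≤ m := by omega
    have g10 : m < 2 ^ (j + 1 - 4 * a k) := lt_of_le_of_lt hm2 g3
    have hmpos : m ≠ 0 := by
      have : 0 < 2 ^ (j - 4 * a k - 5) := by positivity
      omega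
    have hlog1 : 2 ^ Nat.log 2 m ≤ m := Nat.pow_log_le_self 2 hmpos
    have hlog2 : m < 2 ^ (Nat.log 2 m + 1) := Nat.lt_pow_succ_log_self (by norm_num) m
    have hlog3 : j - 4 * a k - 5 ≤ Nat.log 2 m := Nat.le_log_of_pow_le (by norm_num) g9
    have hlog4 : Nat.log 2 m < j + 1 - 4 * a k := Nat.log_lt_of_lt_pow hmpos g10
    have hi : j - 4 * a k - (j - 4 * a k - Nat.log 2 m) = Nat.log 2 m := by omega
    refine ⟨j - 4 * a k - Nat.log 2 m, by omega, ?_⟩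
    rw [hi]
    exact ⟨by omega, by omega, hlog1, hlog2⟩
  refine ⟨A, A', ⟨hA0, hrng, ?_, ?_, ?_, ?_, ?_, ?_, ?_, ?_, ?_⟩⟩
  · exact fun n => hA2 n (Fs u k) fun m _ _ => hT.rep m
  · exact fun i n => hA2' i (f i) (hT.rep' i) n
  · intro n hn1 hn2
    have g2 := gdiv n hn1
    have g3 : n / q k ^ 4 < 2 ^ laT u k := by
      rw [Nat.div_lt_iff_lt_mul hqpos]
      calc n < 2 ^ (4 * a k + laT u k) := hn2
        _ = 2 ^ laT u k * 2 ^ (4 * a k) := by
          rw [← pow_add]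
          congr 1
          omega
        _ ≤ _ := Nat.mul_le_mul_left _ gq2
    exact hA3 n (c k) (by omega) fun m hm1 hm => hT.cov m (by omega) (lt_of_le_of_lt hm g3)
  · intro j G hj1 hj2 hc n hn1 hn2
    refine hA2 n G fun m hm1 hm2 => ?_
    obtain ⟨l, hl5, -, -, hl1, hl2⟩ := hblk j hj1 hj2 n hn1 hn2 m hm1 hm2
    exact (hT.prof _ m hl1 hl2).trans (hc l hl5)
  · intro i j hj1 hj2 hc n hn1 hn2
    have g2 := gdiv n (le_trans (Nat.pow_le_pow_right (by norm_num) hj1) hn1)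
    obtain ⟨x, hx, y, hy, hxy⟩ := hA3' i n (c k) (by omega) fun m hm1 hm2 => by
      obtain ⟨l, hl5, hl3, hl4, hl1, hl2⟩ := hblk j hj1 hj2 n hn1 hn2 m (by omega) hm2
      obtain ⟨x, hx, y, hy, hxy⟩ := hT.good i _ hl3 hl4 (hc l hl5) m hl1 hl2
      exact ⟨x, by exact_mod_cast hx, y, by exact_mod_cast hy, hxy⟩
    exact ⟨x, by exact_mod_cast hx, y, by exact_mod_cast hy, hxy⟩
  · intro i hi1 x
    by_cases hi2 : a i ≤ 3 * a k
    · have h1 := hA4 (q i ^ 2) (mem_image.mpr ⟨i, hmemI i hi1 hi2, rfl⟩) x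
      rw [hyM] at h1
      refine h1.trans ?_
      unfold Pool.Agent.Helper74.FN.St.yN
      have f1' := (Pool.Agent.Helper74.FN.St.NTow.facts h i).1
      have e1 : 2 ^ (2 * u i) = 4096 * 2 ^ (2 * u i - 12) := by
        rw [show (4096 : ℕ) = 2 ^ 12 from rfl, ← pow_add]
        congr 1
        omega
      rw [mul_add, ← e1]
      refine Nat.add_le_add_right ?_ _
      exact Nat.mul_div_le _ _
    · push Not at hi2
      have h1 := (m2 i hi1).2.2.2 hi2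
      have h2 : (A.filter (fun y => y % (q i) ^ 2 = x)).card ≤ 1 := by
        rw [Finset.card_le_one]
        intro y hy z hz
        rw [mem_filter] at hy hz
        have hy1 := (hrng y hy.1).2.trans_le h1
        have hz1 := (hrng z hz.1).2.trans_le h1
        have hy2 := hy.2
        have hz2 := hz.2
        rw [Nat.mod_eq_of_lt hy1] at hy2
        rw [Nat.mod_eq_of_lt hz1] at hz2
        rw [hy2, hz2]
      have h3 : 1 ≤ 2 ^ (2 * u i) := Nat.one_le_two_pow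
      exact h2.trans (h3.trans (Nat.le_add_left _ _))
  · intro i hi x
    refine hA44 (q i ^ 4) ?_ x
    rw [mem_insert, mem_singleton]
    rcases hi with rfl | rfl
    · exact Or.inl rfl
    · exact Or.inr rfl
  · intro n
    rcases lt_or_ge n (2 ^ (4 * a (k + 1) + 8 * u (k + 1) + 1)) with hn | hn
    · exact hA5 n hn
    · have : crossF A O n = ∅ := by
        unfold crossF
        rw [filter_eq_empty_iff]
        intro z hz hzn
        rw [mem_product] at hz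
        have g1 := (hrng _ hz.1).2
        have g2 := hO.bd _ hz.2
        have g3 : 2 ^ (4 * a k + 8 * u k) ≤ 2 ^ (4 * a (k + 1) + 8 * u (k + 1)) :=
          Nat.pow_le_pow_right (by norm_num) (by omega)
        have g5 : 2 ^ (4 * a (k + 1) + 8 * u (k + 1) + 1) =
            2 ^ (4 * a (k + 1) + 8 * u (k + 1)) * 2 := pow_succ _ _
        omega
      rw [this, card_empty]
      exact Nat.zero_le _
  · exact Pool.Agent.Helper74.FN.St.wn_num h k hqk1 hqk2 T A hwin0 hrng hs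

end Pool.Agent.Helper59.FN
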